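import Mathlib
import Pool.Agent.H228R4.Blocks

set_option autoImplicit false

namespace Pool.Agent.H228R7

open Finset Pool.Agent.H228R4

lemma map_eq_of_sum {α β : Type} [Fintype α] [Fintype β] (f : α → ℝ) (f' : β → ℝ)
    (h : ∀ g : ℝ → ℕ, ∑ x, g (f x) = ∑ y, g (f' y)) :
    Multiset.map f univ.val = Multiset.map f' univ.val := by
  classical
  refine Multiset.ext.2 fun z => ?_
  have key : ∀ {γ : Type} [Fintype γ] (p : γ → ℝ), Multiset.count z (Multiset.map p univ.val) =
      ∑ x, (if p x = z then 1 else 0) := by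
    intro γ _ p
    rw [Multiset.count_map, ← Finset.card_filter, Finset.card_def, Finset.filter_val]
    congr 1
    apply Multiset.filter_congr
    intro x _
    exact eq_comm
  rw [key, key]
  exact h fun w => if w = z then 1 else 0

/-- the expansion of a word -/
def expd {n l m : ℕ} (dec : Fin m → ℝ) (T : Fin n → Fin (l + 1) ⊕ Fin m) {Y : Type}
    (e : Y ≃ Fin (l + 1)) (v : Y → ℝ) : Fin n → ℝ :=
  fun i => Sum.elim (fun j => v (e.symm j)) (fun a => dec a) (T i)

lemma expd_eq {n l m : ℕ} (dec : Fin m → ℝ) (enc : ℝ → Fin m) (A : Finset ℝ)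
    (hde : ∀ z ∈ A, dec (enc z) = z) (T : Fin n → Fin (l + 1) ⊕ Fin m) {Y : Type}
    (e : Y ≃ Fin (l + 1)) (v : Y → ℝ) (hv : ∀ y, v y ∈ A) :
    (fun i => dec (ev T (fun j => enc (v (e.symm j))) i)) = expd dec T e v := by
  funext i
  unfold expd ev
  rcases T i with j | a
  · simp only [Sum.elim_inl]
    exact hde _ (hv _)
  · simp only [Sum.elim_inr]
    rfl

lemma expd_inv {n l m k : ℕ} (dec : Fin m → ℝ) (enc : ℝ → Fin m) (A : Finset ℝ)
    (hde : ∀ z ∈ A, dec (enc z) = z) (T : Fin n → Fin (l + 1) ⊕ Fin m)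
    (c : (Fin n → ℝ) → Fin k)
    (hT : ∀ x y : Fin (l + 1) → Fin m, ms x = ms y →
      c (fun i => dec (ev T x i)) = c (fun i => dec (ev T y i)))
    {Y Y' : Type} [Fintype Y] [Fintype Y'] (e : Y ≃ Fin (l + 1)) (e' : Y' ≃ Fin (l + 1))
    (v : Y → ℝ) (v' : Y' → ℝ) (hv : ∀ y, v y ∈ A) (hv' : ∀ y, v' y ∈ A)
    (h : ∀ g : ℝ → ℕ, ∑ x, g (v x) = ∑ y, g (v' y)) :
    c (expd dec T e v) = c (expd dec T e' v') := by
  rw [← expd_eq dec enc A hde T e v hv, ← expd_eq dec enc A hde T e' v' hv']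
  apply hT
  have hm := map_eq_of_sum v v' h
  have key : ∀ {γ : Type} [Fintype γ] (ee : γ ≃ Fin (l + 1)) (p : γ → ℝ),
      ms (fun j => enc (p (ee.symm j))) = Multiset.map enc (Multiset.map p univ.val) := by
    intro γ _ ee p
    unfold ms
    rw [← Multiset.map_univ_val_equiv ee.symm, Multiset.map_map, Multiset.map_map]
    rfl
  rw [key e v, key e' v', hm]

lemma sum_expd {n l m d : ℕ} (T : Fin n → Fin (l + 1) ⊕ Fin m)
    (hT : ∀ p, cnt T p = d) (w : Fin (l + 1) → ℝ) :
    ∑ i : Fin n, Sum.elim w (fun _ => (0 : ℝ)) (T i) = d * ∑ j, w j := by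
  have h1 : ∀ i : Fin n, Sum.elim w (fun _ => (0 : ℝ)) (T i) =
      ∑ j, (ind (T i) j : ℝ) * w j := by
    intro i
    rcases hTi : T i with j | a
    · rw [Finset.sum_eq_single j]
      · rw [ind_inl]; simp
      · intro b _ hb
        rw [ind_inl_ne hb.symm]; simp
      · intro h; exact absurd (mem_univ j) h
    · simp [ind_inr]
  rw [Finset.sum_congr rfl fun i _ => h1 i, Finset.sum_comm, Finset.mul_sum]
  refine Finset.sum_congr rfl fun j _ => ?_
  rw [← Finset.sum_mul, ← hT j]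
  unfold cnt
  push_cast
  rfl

theorem asm {P : Type} [Fintype P] (x0 : P) (δ : P → P → ℝ)
    (hfam : ∀ M : ℕ, 1 ≤ M → ∃ (κ κ' : Type) (_ : Fintype κ) (_ : Fintype κ')
      (w : P → κ → ℝ) (w' : P → κ' → ℝ) (p : ℝ), 0 < p ∧
      (∀ x, ∀ g : ℝ → ℕ, ∑ k, g (w x k) = ∑ k, g (w' x k)) ∧
      (∀ x y, ∑ k, (w x k - w y k) ^ 2 = (M + 1) * p * δ x y) ∧
      (∀ x y, ∑ k, (w' x k - w' y k) ^ 2 = p * δ x y)) (k : ℕ) :
    ∃ (n : ℕ) (D : ℝ), 0 < D ∧ ∀ c : (Fin n → ℝ) → Fin k, ∃ f : P → Fin n → ℝ,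
      (∀ x y, ∑ i, (f x i - f y i) ^ 2 = D * δ x y) ∧ ∀ x y, c (f x) = c (f y) := by
  classical
  obtain ⟨ι, hι, hHJ⟩ := Combinatorics.Line.exists_mono_in_high_dimension P (Fin k)
  set B := Fintype.card ι with hB
  obtain ⟨κ, κ', hκ, hκ', w, w', p, hp, heq, hd1, hd2⟩ := hfam (B + 1) (by omega)
  set M := B + 1 with hM
  set A : Finset ℝ := insert 0 ((univ.image fun z : P × κ => w z.1 z.2) ∪
    (univ.image fun z : P × κ' => w' z.1 z.2)) with hA
  have hA0 : (0 : ℝ) ∈ A := by rw [hA]; simp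
  have hAw : ∀ x k, w x k ∈ A := by
    intro x k
    rw [hA]
    exact mem_insert_of_mem (mem_union_left _ (mem_image.2 ⟨(x, k), mem_univ _, rfl⟩))
  have hAw' : ∀ x k, w' x k ∈ A := by
    intro x k
    rw [hA]
    exact mem_insert_of_mem (mem_union_right _ (mem_image.2 ⟨(x, k), mem_univ _, rfl⟩))
  let eA := A.equivFin
  let dec : Fin A.card → ℝ := fun i => ((eA.symm i : A) : ℝ)
  let enc : ℝ → Fin A.card := fun z => if h : z ∈ A then eA ⟨z, h⟩ else eA ⟨0, hA0⟩
  have hde : ∀ z ∈ A, dec (enc z) = z := by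
    intro z hz
    simp only [dec, enc]
    rw [dif_pos hz]
    simp
  let X : Type := Option (ι × (Fin M × κ))
  set l := Fintype.card (ι × (Fin M × κ)) with hl
  have hcX : Fintype.card X = l + 1 := Fintype.card_option
  let eX : X ≃ Fin (l + 1) := Fintype.equivFinOfCardEq hcX
  obtain ⟨d, hd, hblocks⟩ := blocks_aux A.card l (Finset.card_pos.2 ⟨0, hA0⟩)
  obtain ⟨n, hn⟩ := hblocks k
  refine ⟨n, d * ((M * (B + 1) : ℕ) * p), by positivity, fun c => ?_⟩
  obtain ⟨T, hcnt, hinv⟩ := hn (fun w => c (fun i => dec (w i)))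
  have hT : ∀ x y : Fin (l + 1) → Fin A.card, ms x = ms y →
      c (fun i => dec (ev T x i)) = c (fun i => dec (ev T y i)) := hinv
  let W : (ι → P) → X → ℝ := fun Φ x => match x with
    | none => 0
    | some (j, (_, k)) => w (Φ j) k
  have hWr : ∀ Φ x, W Φ x ∈ A := by
    intro Φ x
    match x with
    | none => exact hA0
    | some (j, (_, k)) => exact hAw _ _
  obtain ⟨Ln, col, hcol⟩ := hHJ (fun Φ => c (expd dec T eX (W Φ)))
  set β := (univ.filter fun j : ι => Ln.idxFun j = none).card with hβ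
  have hβ1 : 1 ≤ β := by
    obtain ⟨j, hj⟩ := Ln.proper
    exact Finset.card_pos.2 ⟨j, Finset.mem_filter.2 ⟨mem_univ j, hj⟩⟩
  have hβB : β ≤ B := Finset.card_le_univ _
  obtain ⟨n1, hn1⟩ : ∃ n1, B + 1 = β + n1 := ⟨B + 1 - β, by omega⟩
  have hge : B + 1 ≤ β * (M + 1) := by
    have : 1 * (M + 1) ≤ β * (M + 1) := Nat.mul_le_mul_right _ hβ1
    omega
  obtain ⟨n2, hn2⟩ : ∃ n2, β * (M + 1) = B + 1 + n2 := Nat.exists_eq_add_of_le hge
  have hsum12 : n1 + n2 = β * M := by
    have h1 : β * (M + 1) = β * M + β := by ring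
    omega
  have hcost : n1 * (M + 1) + n2 = M * (B + 1) := by
    have h1 : (B + 1) * (M + 1) = β * (M + 1) + n1 * (M + 1) := by rw [hn1]; ring
    have h2 : (B + 1) * (M + 1) = M * (B + 1) + (B + 1) := by ring
    omega
  let φ : ι → P := fun j => (Ln.idxFun j).getD x0
  let Y : Type := Option (({j : ι // Ln.idxFun j ≠ none} × (Fin M × κ)) ⊕
    ((Fin n1 × κ) ⊕ (Fin n2 × κ')))
  let V : P → Y → ℝ := fun x y => match y with
    | none => 0
    | some (Sum.inl (j, (_, k))) => w (φ j.1) k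
    | some (Sum.inr (Sum.inl (_, k))) => w x k
    | some (Sum.inr (Sum.inr (_, k))) => w' x k
  have hVr : ∀ x y, V x y ∈ A := by
    intro x y
    match y with
    | none => exact hA0
    | some (Sum.inl (j, (_, k))) => exact hAw _ _
    | some (Sum.inr (Sum.inl (_, k))) => exact hAw _ _
    | some (Sum.inr (Sum.inr (_, k))) => exact hAw' _ _
  have hsums : ∀ (x : P) (g : ℝ → ℕ), ∑ z, g (W (Ln x) z) = ∑ y, g (V x y) := by
    intro x g
    have e1 : ∑ z, g (W (Ln x) z) = g 0 + ∑ j : ι, M * ∑ k, g (w ((Ln x) j) k) := by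
      rw [Fintype.sum_option]
      congr 1
      rw [Fintype.sum_prod_type]
      refine Finset.sum_congr rfl fun j _ => ?_
      rw [Fintype.sum_prod_type]
      simp [W]
    have e2 : ∑ y, g (V x y) = g 0 + (∑ j : {j : ι // Ln.idxFun j ≠ none},
        M * ∑ k, g (w (φ j.1) k) + (n1 * ∑ k, g (w x k) + n2 * ∑ k, g (w' x k))) := by
      rw [Fintype.sum_option]
      congr 1
      rw [Fintype.sum_sum_type]
      congr 1
      · rw [Fintype.sum_prod_type]
        refine Finset.sum_congr rfl fun j _ => ?_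
        rw [Fintype.sum_prod_type]
        simp [V]
      · rw [Fintype.sum_sum_type, Fintype.sum_prod_type, Fintype.sum_prod_type]
        simp [V]
    rw [e1, e2]
    congr 1
    rw [← heq x g, ← add_mul, hsum12, mul_assoc]
    rw [← Finset.sum_filter_add_sum_filter_not univ (fun j : ι => Ln.idxFun j ≠ none)]
    congr 1
    · rw [← Finset.sum_subtype (univ.filter fun j : ι => Ln.idxFun j ≠ none)
        (p := fun j => Ln.idxFun j ≠ none) (by simp)
        (fun j => M * ∑ k, g (w (φ j) k))]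
      refine Finset.sum_congr rfl fun j hj => ?_
      have hj' := (Finset.mem_filter.1 hj).2
      obtain ⟨a, ha⟩ := Option.ne_none_iff_exists'.1 hj'
      have h1 : (Ln x) j = a := by
        show (Ln.idxFun j).getD x = a
        rw [ha]; rfl
      have h2 : φ j = a := by simp only [φ]; rw [ha]; rfl
      rw [h1, h2]
    · have h1 : ∀ j ∈ univ.filter (fun j : ι => ¬ Ln.idxFun j ≠ none),
          M * ∑ k, g (w ((Ln x) j) k) = M * ∑ k, g (w x k) := by
        intro j hj
        have hj' := not_not.1 (Finset.mem_filter.1 hj).2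
        have : (Ln x) j = x := by
          show (Ln.idxFun j).getD x = x
          rw [hj']; rfl
        rw [this]
      rw [Finset.sum_congr rfl h1, Finset.sum_const, smul_eq_mul]
      congr 1
      rw [hβ]
      congr 1
      apply Finset.filter_congr
      intro j _
      simp
  have hcY : Fintype.card Y = l + 1 := by
    have h1 := hsums x0 (fun _ => 1)
    simp only [Finset.sum_const, Finset.card_univ, smul_eq_mul, mul_one] at h1
    rw [← h1]; exact hcX
  let eY : Y ≃ Fin (l + 1) := Fintype.equivFinOfCardEq hcY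
  have hcolY : ∀ x : P, c (expd dec T eY (V x)) = col := by
    intro x
    rw [← hcol x]
    exact (expd_inv dec enc A hde T c hT eX eY (W (Ln x)) (V x) (hWr _) (hVr _) (hsums x)).symm
  refine ⟨fun x => expd dec T eY (V x), ?_, fun x y => by rw [hcolY, hcolY]⟩
  intro x y
  have h1 : ∀ i, (expd dec T eY (V x) i - expd dec T eY (V y) i) ^ 2 =
      Sum.elim (fun j => (V x (eY.symm j) - V y (eY.symm j)) ^ 2) (fun _ => (0 : ℝ)) (T i) := by
    intro i
    unfold expd
    rcases T i with j | a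
    · simp
    · simp
  rw [Finset.sum_congr rfl fun i _ => h1 i, sum_expd T hcnt, mul_assoc]
  congr 1
  rw [Equiv.sum_comp eY.symm (fun z => (V x z - V y z) ^ 2)]
  have h2 : ∑ z, (V x z - V y z) ^ 2 = n1 * ∑ k, (w x k - w y k) ^ 2 +
      n2 * ∑ k, (w' x k - w' y k) ^ 2 := by
    rw [Fintype.sum_option, Fintype.sum_sum_type, Fintype.sum_sum_type, Fintype.sum_prod_type,
      Fintype.sum_prod_type, Fintype.sum_prod_type]
    simp [V]
  rw [h2, hd1, hd2]
  have h3 : ((n1 * (M + 1) + n2 : ℕ) : ℝ) = ((M * (B + 1) : ℕ) : ℝ) := by rw [hcost]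
  rw [← h3]
  push_cast
  ring

end Pool.Agent.H228R7
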