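import Mathlib

set_option autoImplicit false

namespace Pool.Agent.H228R7

open Finset

/-- first coordinates of the kite -/
noncomputable def KX (a : ℝ) : Fin 4 → ℝ := ![1, -1, a, a]

/-- second coordinates of the kite -/
noncomputable def KY (a : ℝ) : Fin 4 → ℝ := ![0, 0, √(1 - a ^ 2), -√(1 - a ^ 2)]

lemma ident (G : ℕ → ℤ) (P Q : ℕ) :
    ∑ i ∈ range P, ∑ j ∈ range Q, (G (i + j + 2) + G (i + j) - 2 * G (i + j + 1)) =
      G 0 + G (P + Q) - G P - G Q := by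
  have h1 : ∀ i, ∑ j ∈ range Q, (G (i + j + 2) + G (i + j) - 2 * G (i + j + 1)) =
      (G (i + Q + 1) - G (i + Q)) - (G (i + 1) - G i) := by
    intro i
    have := Finset.sum_range_sub (fun j => G (i + j + 1) - G (i + j)) Q
    simp only [add_zero] at this
    rw [← this]
    refine Finset.sum_congr rfl fun j _ => ?_
    have e1 : i + (j + 1) + 1 = i + j + 2 := by ring
    have e2 : i + (j + 1) = i + j + 1 := by ring
    rw [e1, e2]; ring
  rw [Finset.sum_congr rfl fun i _ => h1 i, Finset.sum_sub_distrib, Finset.sum_range_sub]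
  have h2 := Finset.sum_range_sub (fun i => G (i + Q)) P
  simp only [zero_add] at h2
  have h3 : ∑ i ∈ range P, (G (i + Q + 1) - G (i + Q)) = G (P + Q) - G Q := by
    rw [← h2]
    refine Finset.sum_congr rfl fun i _ => ?_
    have e1 : i + 1 + Q = i + Q + 1 := by ring
    rw [e1]
  rw [h3]; ring

lemma key (g : ℝ → ℕ) (c : ℝ) (P Q : ℕ) :
    g (c + Q) + g (c + P) + ∑ i : Fin P, ∑ j : Fin Q,
      (g (c + ((i : ℕ) + (j : ℕ) + 1) + 1) + g (c + ((i : ℕ) + (j : ℕ) + 1) - 1)) =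
    g c + g (c + (P + Q)) + ∑ i : Fin P, ∑ j : Fin Q,
      (g (c + ((i : ℕ) + (j : ℕ) + 1)) + g (c + ((i : ℕ) + (j : ℕ) + 1))) := by
  have h := ident (fun n => (g (c + n) : ℤ)) P Q
  simp only [Nat.cast_zero, add_zero] at h
  have hL : (((∑ i : Fin P, ∑ j : Fin Q,
      (g (c + ((i : ℕ) + (j : ℕ) + 1) + 1) + g (c + ((i : ℕ) + (j : ℕ) + 1) - 1)) : ℕ)) : ℤ) =
      ∑ i ∈ range P, ∑ j ∈ range Q, ((g (c + (i + j + 2 : ℕ)) : ℤ) + g (c + (i + j : ℕ))) := by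
    push_cast
    rw [← Fin.sum_univ_eq_sum_range (fun i => ∑ j ∈ range Q,
      ((g (c + ((i : ℝ) + j + 2)) : ℤ) + g (c + ((i : ℝ) + j)))) P]
    refine Finset.sum_congr rfl fun i _ => ?_
    rw [← Fin.sum_univ_eq_sum_range (fun j =>
      ((g (c + (((i : ℕ) : ℝ) + j + 2)) : ℤ) + g (c + (((i : ℕ) : ℝ) + j)))) Q]
    refine Finset.sum_congr rfl fun j _ => ?_
    have e1 : c + (((i : ℕ) : ℝ) + ((j : ℕ) : ℝ) + 1) + 1 = c + (((i : ℕ) : ℝ) + ((j : ℕ) : ℝ) + 2) := by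
      ring
    have e2 : c + (((i : ℕ) : ℝ) + ((j : ℕ) : ℝ) + 1) - 1 = c + (((i : ℕ) : ℝ) + ((j : ℕ) : ℝ)) := by
      ring
    rw [e1, e2]
  have hR : (((∑ i : Fin P, ∑ j : Fin Q,
      (g (c + ((i : ℕ) + (j : ℕ) + 1)) + g (c + ((i : ℕ) + (j : ℕ) + 1))) : ℕ)) : ℤ) =
      ∑ i ∈ range P, ∑ j ∈ range Q, (2 * (g (c + (i + j + 1 : ℕ)) : ℤ)) := by
    push_cast
    rw [← Fin.sum_univ_eq_sum_range (fun i => ∑ j ∈ range Q,
      (2 * (g (c + ((i : ℝ) + j + 1)) : ℤ))) P]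
    refine Finset.sum_congr rfl fun i _ => ?_
    rw [← Fin.sum_univ_eq_sum_range (fun j =>
      (2 * (g (c + (((i : ℕ) : ℝ) + j + 1)) : ℤ))) Q]
    refine Finset.sum_congr rfl fun j _ => ?_
    ring
  have h' : ∑ i ∈ range P, ∑ j ∈ range Q,
      ((g (c + (i + j + 2 : ℕ)) : ℤ) + g (c + (i + j : ℕ))) -
      ∑ i ∈ range P, ∑ j ∈ range Q, (2 * (g (c + (i + j + 1 : ℕ)) : ℤ)) =
      (g c : ℤ) + g (c + (P + Q : ℕ)) - g (c + P) - g (c + Q) := by
    rw [← h, ← Finset.sum_sub_distrib]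
    refine Finset.sum_congr rfl fun i _ => ?_
    rw [← Finset.sum_sub_distrib]
  rw [← hL, ← hR] at h'
  have e3 : c + ((P + Q : ℕ) : ℝ) = c + (P + Q) := by push_cast; ring
  rw [e3] at h'
  omega

theorem kfam (a : ℝ) (ha : -1 < a) (ha' : a < 1) (M : ℕ) (hM : 1 ≤ M) :
    ∃ (κ κ' : Type) (_ : Fintype κ) (_ : Fintype κ')
      (w : Fin 4 → κ → ℝ) (w' : Fin 4 → κ' → ℝ) (p : ℝ), 0 < p ∧
      (∀ x, ∀ g : ℝ → ℕ, ∑ k, g (w x k) = ∑ k, g (w' x k)) ∧
      (∀ x y, ∑ k, (w x k - w y k) ^ 2 =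
        (M + 1) * p * ((KX a x - KX a y) ^ 2 + (KY a x - KY a y) ^ 2)) ∧
      (∀ x y, ∑ k, (w' x k - w' y k) ^ 2 =
        p * ((KX a x - KX a y) ^ 2 + (KY a x - KY a y) ^ 2)) := by
  obtain ⟨lam, hlam⟩ : ∃ lam, lam = (1 + a) / 2 := ⟨_, rfl⟩
  obtain ⟨mu, hmu⟩ : ∃ mu, mu = (1 - a) / 2 := ⟨_, rfl⟩
  have hl0 : 0 < lam := by rw [hlam]; linarith
  have hm0 : 0 < mu := by rw [hmu]; linarith
  have hm1 : mu < 1 := by rw [hmu]; linarith
  have hM0 : (0 : ℝ) < M := by exact_mod_cast hM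
  obtain ⟨Q, hQ⟩ : ∃ Q : ℕ, Q = ⌈M / lam ^ 2⌉₊ + 1 := ⟨_, rfl⟩
  have hQM : M / lam ^ 2 ≤ (Q : ℝ) := by
    rw [hQ]; push_cast
    have := Nat.le_ceil (M / lam ^ 2)
    linarith
  have hQ1 : (1 : ℝ) ≤ Q := by rw [hQ]; push_cast; linarith [Nat.cast_nonneg (α := ℝ) ⌈M / lam ^ 2⌉₊]
  obtain ⟨P, hP⟩ : ∃ P : ℕ, P = ⌈Q * lam / mu⌉₊ := ⟨_, rfl⟩
  have hP1 : Q * lam / mu ≤ (P : ℝ) := by rw [hP]; exact Nat.le_ceil _
  have hP2 : (P : ℝ) < Q * lam / mu + 1 := by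
    rw [hP]; exact Nat.ceil_lt_add_one (by positivity)
  obtain ⟨h, hh⟩ : ∃ h : ℝ, h = P / lam := ⟨_, rfl⟩
  obtain ⟨k0, hk0⟩ : ∃ k0 : ℝ, k0 = Q / mu := ⟨_, rfl⟩
  have hlh : lam * h = P := by rw [hh]; field_simp
  have hmk : mu * k0 = Q := by rw [hk0]; field_simp
  have hk0Q : (Q : ℝ) ≤ k0 := by
    rw [hk0, le_div_iff₀ hm0]
    nlinarith
  have hge : k0 ≤ h := by
    rw [hh, le_div_iff₀ hl0, hk0]
    calc Q / mu * lam = Q * lam / mu := by ring
      _ ≤ P := hP1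
  have hlt : h - k0 ≤ 1 / lam := by
    have : h < k0 + 1 / lam := by
      rw [hh, hk0, div_lt_iff₀ hl0]
      have : (Q / mu + 1 / lam) * lam = Q * lam / mu + 1 := by field_simp
      rw [this]; exact hP2
    linarith
  obtain ⟨p, hp⟩ : ∃ p : ℝ, p = h * k0 / (2 * M) := ⟨_, rfl⟩
  have hpM : h * k0 / 2 = M * p := by rw [hp]; field_simp
  have hp0 : 0 < p := by
    rw [hp]
    have : 0 < k0 := by linarith
    have : 0 < h := by linarith
    positivity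
  have hpge : (h - k0) ^ 2 / 8 ≤ p := by
    have h1 : (h - k0) ^ 2 ≤ (1 / lam) ^ 2 := by
      apply pow_le_pow_left₀ (by linarith) hlt
    have h2 : M / lam ^ 2 ≤ h * k0 := by
      have : (Q : ℝ) * 1 ≤ h * k0 := by
        apply mul_le_mul <;> linarith
      linarith
    have h3 : (1 / lam) ^ 2 / 2 ≤ p := by
      rw [hp, div_le_div_iff₀ (by norm_num) (by positivity)]
      have h4 : (1 / lam) ^ 2 * M = M / lam ^ 2 := by field_simp
      nlinarith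
    have h5 : 0 ≤ (1 / lam) ^ 2 := by positivity
    linarith
  obtain ⟨s0, hs0⟩ : ∃ s0 : ℝ, s0 ^ 2 = p - (h - k0) ^ 2 / 8 :=
    ⟨√(p - (h - k0) ^ 2 / 8), Real.sq_sqrt (by linarith)⟩
  obtain ⟨u0, hu0⟩ : ∃ u0 : ℝ, u0 ^ 2 = p := ⟨√p, Real.sq_sqrt hp0.le⟩
  obtain ⟨ww, hww⟩ : ∃ ww : ℝ, ww = √(1 - a ^ 2) := ⟨_, rfl⟩
  have hww2 : ww ^ 2 = 4 * lam * mu := by
    rw [hww, Real.sq_sqrt (by nlinarith), hlam, hmu]; ring
  have hww0 : 0 < ww := by rw [hww]; exact Real.sqrt_pos.2 (by nlinarith)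
  obtain ⟨om, hom⟩ : ∃ om : ℝ, om = 1 / ww := ⟨_, rfl⟩
  have homw : om * ww = 1 := by rw [hom]; field_simp
  have hom2 : 2 * (P * Q) * om ^ 2 = h * k0 / 2 := by
    rw [← hlh, ← hmk]
    have : om ^ 2 * (4 * lam * mu) = 1 := by rw [← hww2, ← mul_pow, homw, one_pow]
    linear_combination (h * k0 / 2) * this
  obtain ⟨c, hc⟩ : ∃ c : ℝ, c = lam * (-(h - k0) / 2) := ⟨_, rfl⟩
  have hlm : lam = 1 - mu := by rw [hlam, hmu]; ring
  have haL : a = lam - mu := by rw [hlam, hmu]; ring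
  let κ : Type := Bool ⊕ (((Fin P × Fin Q) × Bool) ⊕ Bool)
  let w : Fin 4 → κ → ℝ := fun z => Sum.elim
    (fun e => if e then (-(h - k0) / 2 + k0) / 2 - (h + k0) / 4 * KX a z
      else (h + k0) / 4 + (h + k0) / 4 * KX a z)
    (Sum.elim (fun q => c + ((q.1.1 : ℕ) + (q.1.2 : ℕ) + 1) +
      (if q.2 then om * KY a z else -(om * KY a z)))
      (fun e => if e then s0 * KX a z else u0 * KY a z))
  let w' : Fin 4 → κ → ℝ := fun z => Sum.elim
    (fun e => if e then -(h - k0) / 4 - (h - k0) / 4 * KX a z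
      else ((h + k0) / 2 + k0) / 2 + (h - k0) / 4 * KX a z)
    (Sum.elim (fun q => c + ((q.1.1 : ℕ) + (q.1.2 : ℕ) + 1))
      (fun e => if e then s0 * KX a z else u0 * KY a z))
  have hsw : ∀ (z : Fin 4) (g : ℝ → ℕ), ∑ k, g (w z k) =
      (g ((-(h - k0) / 2 + k0) / 2 - (h + k0) / 4 * KX a z) +
        g ((h + k0) / 4 + (h + k0) / 4 * KX a z)) +
      ((∑ i : Fin P, ∑ j : Fin Q, (g (c + ((i : ℕ) + (j : ℕ) + 1) + om * KY a z) +
        g (c + ((i : ℕ) + (j : ℕ) + 1) + -(om * KY a z)))) +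
      (g (s0 * KX a z) + g (u0 * KY a z))) := by
    intro z g
    simp [w, κ, Fintype.sum_sum_type, Fintype.sum_prod_type]
  have hsw' : ∀ (z : Fin 4) (g : ℝ → ℕ), ∑ k, g (w' z k) =
      (g (-(h - k0) / 4 - (h - k0) / 4 * KX a z) +
        g (((h + k0) / 2 + k0) / 2 + (h - k0) / 4 * KX a z)) +
      ((∑ i : Fin P, ∑ j : Fin Q, (g (c + ((i : ℕ) + (j : ℕ) + 1)) +
        g (c + ((i : ℕ) + (j : ℕ) + 1)))) +
      (g (s0 * KX a z) + g (u0 * KY a z))) := by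
    intro z g
    simp only [w', κ, Fintype.sum_sum_type, Fintype.sum_prod_type, Fintype.sum_bool,
      Sum.elim_inl, Sum.elim_inr, if_true]
    simp
  refine ⟨κ, κ, inferInstance, inferInstance, w, w', p, hp0, ?_, ?_, ?_⟩
  · intro z g
    rw [hsw, hsw']
    have hkey := key g c P Q
    have cQ : c + Q = (-(h - k0) / 2 + k0) / 2 - (h + k0) / 4 * a := by
      rw [hc, ← hmk, haL, hlm]; ring
    have cP : c + P = (h + k0) / 4 + (h + k0) / 4 * a := by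
      rw [hc, ← hlh, haL, hlm]; ring
    have c0 : c = -(h - k0) / 4 - (h - k0) / 4 * a := by
      rw [hc, haL, hlm]; ring
    have cPQ : c + (P + Q) = ((h + k0) / 2 + k0) / 2 + (h - k0) / 4 * a := by
      rw [hc, ← hlh, ← hmk, haL, hlm]; ring
    rw [cQ, cP, cPQ] at hkey
    fin_cases z
    · simp only [KX, KY, Matrix.cons_val_zero, Fin.zero_eta, Fin.isValue, mul_zero, neg_zero,
        add_zero]
      have e1 : (-(h - k0) / 2 + k0) / 2 - (h + k0) / 4 * 1 =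
        -(h - k0) / 4 - (h - k0) / 4 * 1 := by ring
      have e2 : (h + k0) / 4 + (h + k0) / 4 * 1 =
        ((h + k0) / 2 + k0) / 2 + (h - k0) / 4 * 1 := by ring
      rw [e1, e2]
    · simp only [KX, KY, Matrix.cons_val_one, Fin.mk_one, Fin.isValue, mul_zero, neg_zero,
        add_zero, Matrix.cons_val_zero]
      have e1 : (-(h - k0) / 2 + k0) / 2 - (h + k0) / 4 * -1 =
        ((h + k0) / 2 + k0) / 2 + (h - k0) / 4 * -1 := by ring
      have e2 : (h + k0) / 4 + (h + k0) / 4 * -1 =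
        -(h - k0) / 4 - (h - k0) / 4 * -1 := by ring
      rw [e1, e2]
      ring
    · have hX : KX a ⟨2, by norm_num⟩ = a := rfl
      have hY : KY a ⟨2, by norm_num⟩ = ww := by rw [hww]; rfl
      simp only [hX, hY, homw, ← sub_eq_add_neg]
      rw [← c0]
      omega
    · have hX : KX a ⟨3, by norm_num⟩ = a := rfl
      have hY : KY a ⟨3, by norm_num⟩ = -ww := by rw [hww]; rfl
      have e4 : om * -ww = -1 := by rw [mul_neg, homw]
      simp only [hX, hY, e4, neg_neg, ← sub_eq_add_neg]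
      rw [← c0]
      have e5 : ∑ i : Fin P, ∑ j : Fin Q, (g (c + ((i : ℕ) + (j : ℕ) + 1) - 1) +
        g (c + ((i : ℕ) + (j : ℕ) + 1) + 1)) = ∑ i : Fin P, ∑ j : Fin Q,
        (g (c + ((i : ℕ) + (j : ℕ) + 1) + 1) + g (c + ((i : ℕ) + (j : ℕ) + 1) - 1)) :=
        Finset.sum_congr rfl fun i _ => Finset.sum_congr rfl fun j _ => add_comm _ _
      rw [e5]
      omega
  · intro x y
    have h1 : ∑ k, (w x k - w y k) ^ 2 =
        2 * ((h + k0) / 4) ^ 2 * (KX a x - KX a y) ^ 2 +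
        (2 * (P * Q) * om ^ 2 * (KY a x - KY a y) ^ 2 +
        (s0 ^ 2 * (KX a x - KX a y) ^ 2 + u0 ^ 2 * (KY a x - KY a y) ^ 2)) := by
      simp only [w, κ, Fintype.sum_sum_type, Fintype.sum_prod_type, Fintype.sum_bool,
        Sum.elim_inl, Sum.elim_inr, if_true, Bool.false_eq_true, if_false]
      congr 1
      · ring
      congr 1
      · have e6 : ∀ (i : Fin P) (j : Fin Q),
          (c + ((i : ℕ) + (j : ℕ) + 1) + om * KY a x - (c + ((i : ℕ) + (j : ℕ) + 1) + om * KY a y)) ^ 2 +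
          (c + ((i : ℕ) + (j : ℕ) + 1) + -(om * KY a x) -
            (c + ((i : ℕ) + (j : ℕ) + 1) + -(om * KY a y))) ^ 2 =
          2 * om ^ 2 * (KY a x - KY a y) ^ 2 := by intro i j; ring
        simp only [e6, Finset.sum_const, Finset.card_univ, Fintype.card_fin, nsmul_eq_mul]
        ring
      · ring
    rw [h1, hom2, hs0, hu0]
    linear_combination ((KX a x - KX a y) ^ 2 + (KY a x - KY a y) ^ 2) * hpM
  · intro x y
    have h1 : ∑ k, (w' x k - w' y k) ^ 2 =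
        2 * ((h - k0) / 4) ^ 2 * (KX a x - KX a y) ^ 2 +
        (0 + (s0 ^ 2 * (KX a x - KX a y) ^ 2 + u0 ^ 2 * (KY a x - KY a y) ^ 2)) := by
      simp only [w', κ, Fintype.sum_sum_type, Fintype.sum_prod_type, Fintype.sum_bool,
        Sum.elim_inl, Sum.elim_inr, if_true, Bool.false_eq_true, if_false]
      congr 1
      · ring
      congr 1
      · simp
      · ring
    rw [h1, hs0, hu0]
    ring

end Pool.Agent.H228R7
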